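import Mathlib

/-! # leaf: a large `K_p^r`-free `r`-graph (complement of `m` complete `r`-graphs) -/

set_option autoImplicit false

namespace ESW
open Finset

theorem exists_free (n r p m : ℕ) (hr : 2 ≤ r) (hm : 1 ≤ m) (hmp : m * (r - 1) < p) :
    ∃ G : Finset (Finset (Fin n)), (∀ e ∈ G, e.card = r) ∧
      (∀ S : Finset (Fin n), S.card = p → ¬ S.powersetCard r ⊆ G) ∧
      n.choose r ≤ G.card + m * ((n + m - 1) / m).choose r := by
  classical
  let V : ℕ → Finset (Fin n) := fun j => univ.filter (fun x : Fin n => x.1 % m = j)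
  have hV : ∀ j x, x ∈ V j ↔ x.1 % m = j := fun j x => by simp [V]
  have hcard : ∀ j, (V j).card ≤ (n + m - 1) / m := by
    intro j
    have h1 : (V j).card ≤ (range ((n + m - 1) / m)).card := by
      refine card_le_card_of_injOn (fun x : Fin n => x.1 / m) (fun x _ => ?_)
        (fun x hx y hy hxy => ?_)
      · have hx := x.2
        have h2 : x.1 / m + 1 = (x.1 + m) / m := by
          rw [Nat.add_div_right _ (by omega)]
        have h3 : (x.1 + m) / m ≤ (n + m - 1) / m := Nat.div_le_div_right (by omega)
        simp only [coe_range, Set.mem_Iio]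
        omega
      · have hx' := (hV j x).1 (mem_coe.1 hx)
        have hy' := (hV j y).1 (mem_coe.1 hy)
        have hxy' : x.1 / m = y.1 / m := hxy
        apply Fin.ext
        have e1 := Nat.div_add_mod x.1 m
        have e2 := Nat.div_add_mod y.1 m
        rw [hxy', hx', ← hy', e2] at e1
        exact e1.symm
    rwa [card_range] at h1
  let G : Finset (Finset (Fin n)) :=
    ((univ : Finset (Fin n)).powersetCard r).filter (fun e => ∀ j ∈ range m, ¬ e ⊆ V j)
  have hG : ∀ e, e ∈ G ↔ e.card = r ∧ ∀ j ∈ range m, ¬ e ⊆ V j := fun e => by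
    simp [G, mem_filter, mem_powersetCard]
  refine ⟨G, fun e he => ((hG e).1 he).1, ?_, ?_⟩
  · intro S hS hSG
    obtain ⟨j, hj, hj2⟩ := exists_lt_card_fiber_of_mul_lt_card_of_maps_to
      (s := S) (t := range m) (f := fun x : Fin n => x.1 % m) (n := r - 1)
      (fun a _ => mem_range.2 (Nat.mod_lt _ (by omega))) (by rw [card_range, hS]; exact hmp)
    obtain ⟨e, he, he2⟩ := exists_subset_card_eq (s := S.filter (fun x : Fin n => x.1 % m = j))
      (n := r) (by omega)
    have h1 : e ∈ G := hSG (mem_powersetCard.2 ⟨he.trans (filter_subset _ _), he2⟩)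
    refine ((hG e).1 h1).2 j hj fun x hx => (hV j x).2 ?_
    exact (mem_filter.1 (he hx)).2
  · have h1 : ((univ : Finset (Fin n)).powersetCard r) ⊆
        G ∪ (range m).biUnion (fun j => (V j).powersetCard r) := by
      intro e he
      have he' := (mem_powersetCard.1 he).2
      by_cases h : ∀ j ∈ range m, ¬ e ⊆ V j
      · exact mem_union_left _ ((hG e).2 ⟨he', h⟩)
      · push Not at h
        obtain ⟨j, hj, hj2⟩ := h
        exact mem_union_right _ (mem_biUnion.2 ⟨j, hj, mem_powersetCard.2 ⟨hj2, he'⟩⟩)
    have h2 := card_le_card h1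
    have h3 := h2.trans (card_union_le _ _)
    have h4 : ((range m).biUnion (fun j => (V j).powersetCard r)).card ≤
        m * ((n + m - 1) / m).choose r := by
      refine card_biUnion_le.trans ?_
      refine (sum_le_card_nsmul (range m) _ (((n + m - 1) / m).choose r) fun j _ => ?_).trans ?_
      · rw [card_powersetCard]
        exact Nat.choose_le_choose r (hcard j)
      · rw [card_range, smul_eq_mul]
    rw [card_powersetCard, card_univ, Fintype.card_fin] at h3
    omega

end ESW
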