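import Mathlib

/-! # leaf: a partition with one copy -/

set_option autoImplicit false

namespace ESW
open Finset

theorem exists_part {n r p : ℕ} (hr : 2 ≤ r) (hrp : r < p) (H : Finset (Finset (Fin n)))
    {S : Finset (Fin n)} (hS : S.card = p) (hSH : S.powersetCard r ⊆ H) :
    ∃ P : Finpartition H,
      (∀ B ∈ P.parts, B.card = 1 ∨
        ∃ S : Finset (Fin n), S.card = p ∧ B = S.powersetCard r) ∧
      P.parts.card + p.choose r = H.card + 1 := by
  classical
  have hne : S.powersetCard r ≠ ⊥ := by
    rw [Finset.bot_eq_empty, ← Finset.nonempty_iff_ne_empty]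
    exact Finset.powersetCard_nonempty.2 (by omega)
  obtain ⟨P, hP1, hP2⟩ : ∃ P : Finpartition H,
      (∀ B ∈ P.parts, B = S.powersetCard r ∨ B.card = 1) ∧
        P.parts.card = (H \ S.powersetCard r).card + 1 := by
    refine ⟨(⊥ : Finpartition (H \ S.powersetCard r)).extend hne sdiff_disjoint
      (Finset.sdiff_union_of_subset hSH), ?_, ?_⟩
    · intro B hB
      rcases Finset.mem_insert.1 hB with h | h
      · exact Or.inl h
      · obtain ⟨a, _, ha⟩ := Finpartition.mem_bot_iff.1 h
        right
        rw [← ha, Finset.card_singleton]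
    · rw [Finpartition.card_extend, Finpartition.card_bot]
  refine ⟨P, fun B hB => ?_, ?_⟩
  · rcases hP1 B hB with h | h
    · exact Or.inr ⟨S, hS, h⟩
    · exact Or.inl h
  · rw [hP2, Finset.card_sdiff_of_subset hSH, Finset.card_powersetCard, hS]
    have h1 := Finset.card_le_card hSH
    rw [Finset.card_powersetCard, hS] at h1
    omega

theorem exists_part_bot {n r p : ℕ} (H : Finset (Finset (Fin n))) :
    ∃ P : Finpartition H,
      (∀ B ∈ P.parts, B.card = 1 ∨
        ∃ S : Finset (Fin n), S.card = p ∧ B = S.powersetCard r) ∧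
      P.parts.card = H.card := by
  classical
  refine ⟨⊥, fun B hB => ?_, Finpartition.card_bot H⟩
  obtain ⟨a, _, ha⟩ := Finpartition.mem_bot_iff.1 hB
  left
  rw [← ha, Finset.card_singleton]

end ESW
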