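import Pool.Agent.Lib.MP_1f562fW.Free
import Pool.Agent.Lib.MP_1f562fW.Part

/-!
# MP_1f562f_co: the Erdős–Sauer bound when `n` is not too large compared with `p` (helper97)
-/

set_option autoImplicit false

namespace ESW
open Finset

theorem main (n r p m : ℕ) (hr : 2 ≤ r) (hrp : r < p) (hm : 1 ≤ m) (hmp : m * (r - 1) < p)
    (hc : m * ((n + m - 1) / m).choose r < p.choose r) (H : Finset (Finset (Fin n)))
    (hH : ∀ e ∈ H, e.card = r) :
    ∃ P : Finpartition H,
      (∀ B ∈ P.parts, B.card = 1 ∨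
        ∃ S : Finset (Fin n), S.card = p ∧ B = S.powersetCard r) ∧
      ∃ G : Finset (Finset (Fin n)),
        (∀ e ∈ G, e.card = r) ∧
        (∀ S : Finset (Fin n), S.card = p → ¬ S.powersetCard r ⊆ G) ∧
        P.parts.card ≤ G.card := by
  by_cases h : ∃ S : Finset (Fin n), S.card = p ∧ S.powersetCard r ⊆ H
  · obtain ⟨S, hS, hSH⟩ := h
    obtain ⟨P, hP, hP'⟩ := exists_part hr hrp H hS hSH
    obtain ⟨G, hG1, hG2, hG3⟩ := exists_free n r p m hr hm hmp
    refine ⟨P, hP, G, hG1, hG2, ?_⟩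
    have h1 : H.card ≤ n.choose r := by
      have h2 : H ⊆ (univ : Finset (Fin n)).powersetCard r := fun e he => by
        rw [mem_powersetCard]; exact ⟨subset_univ _, hH e he⟩
      simpa using card_le_card h2
    omega
  · push Not at h
    obtain ⟨P, hP, hP'⟩ := exists_part_bot (r := r) (p := p) H
    exact ⟨P, hP, H, hH, h, hP'.le⟩

end ESW
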